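import Pool.Agent.H.MP_451b27_lc.D
import Pool.Agent.H.MP_4eb715_lc.C
import Pool.Agent.Lib.helper21.CPred

/-! It is undecidable whether the sandwich problem for `F`-free graphs is a CSP. -/

namespace Pool.Agent.Results.MP_451b27_lc.Undec

/-- A finite graph is given by its number of vertices and a list of edges. -/
abbrev Code : Type := ℕ × List (ℕ × ℕ)

/-- The graph with code `c`. -/
def gr (c : Code) : SimpleGraph (Fin c.1) := SimpleGraph.fromRel fun a b => (a.val, b.val) ∈ c.2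

/-- No member of `F` is isomorphic to an induced subgraph of `G`. -/
def Free {V : Type} (F : List Code) (G : SimpleGraph V) : Prop := ∀ c ∈ F, IsEmpty (gr c ↪g G)

/-- The 2-edge-coloured graph `(V, B, R)` is a yes-instance of the sandwich problem. -/
def SP {V : Type} (F : List Code) (B R : SimpleGraph V) : Prop :=
  ∃ E : SimpleGraph V, B ≤ E ∧ Disjoint E R ∧ Free F E

/-- There is a homomorphism of 2-edge-coloured graphs `(V, B, R) → (W, B', R')`. -/
def Hom {V W : Type} (B R : SimpleGraph V) (B' R' : SimpleGraph W) : Prop :=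
  ∃ f : V → W, (∀ u v, B.Adj u v → B'.Adj (f u) (f v)) ∧ ∀ u v, R.Adj u v → R'.Adj (f u) (f v)

/-- The sandwich problem for `F`-free graphs is the CSP of some 2-edge-coloured graph. -/
def IsCSP (F : List Code) : Prop :=
  ∃ (W : Type) (B' R' : SimpleGraph W), Disjoint B' R' ∧
    ∀ (k : ℕ) (B R : SimpleGraph (Fin k)), Disjoint B R → (SP F B R ↔ Hom B R B' R')

open Pool.Agent.H.MP_451b27_lc Pool.Agent.H.MP_4eb715_lc Pool.Agent.Lib.helper21.PR
  Pool.Agent.Lib.helper21.While Pool.Agent.Lib.helper21.Mach Function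

def codes (b : ℕ) : List Code := (List.range (b + 1)).flatMap fun k =>
  (prod (List.range k) (List.range k)).sublists'.map fun L => (k, L)

theorem free_iff (P : ∀ {V : Type}, SimpleGraph V → Prop) (b : ℕ) (p : Code → Prop)
    (hp : ∀ c, p c ↔ P (gr c))
    (pull : ∀ {V V' : Type} {G : SimpleGraph V} {G' : SimpleGraph V'} {g : V → V'},
      (∀ u v, G.Adj u v ↔ G'.Adj (g u) (g v)) → P G' → P G)
    (loc : ∀ {V : Type} {G : SimpleGraph V},
      (∀ k ≤ b, ∀ f : Fin k → V, Injective f → P (G.comap f)) → P G)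
    {V : Type} (G : SimpleGraph V) : Free (flt (codes b) fun c => ¬p c) G ↔ P G := by
  refine ⟨fun h => loc fun k hk f hf => ?_, fun h c hc => ⟨fun φ => (mem_flt.1 hc).2
    ((hp c).2 (pull (g := φ) (fun _ _ => φ.map_adj_iff.symm) h))⟩⟩
  let c : Code := (k, flt (prod (List.range k) (List.range k))
    fun z => ∃ a b : Fin k, z = (a.val, b.val) ∧ G.Adj (f a) (f b))
  have e : ∀ u v : Fin k, (gr c).Adj u v ↔ G.Adj (f u) (f v) := by
    intro u v
    have : ∀ u v : Fin k, (u.val, v.val) ∈ c.2 ↔ G.Adj (f u) (f v) := fun u v => by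
      simp [c, Fin.val_inj]
    simp only [gr, SimpleGraph.fromRel_adj, this]
    exact ⟨fun h => h.2.elim id G.adj_symm, fun h => ⟨fun e => h.ne (congrArg f e), Or.inl h⟩⟩
  by_contra hh
  refine (h c (mem_flt.2 ⟨?_, fun h => hh (pull (g := id) (fun u v => (e u v).symm)
    ((hp c).1 h))⟩)).elim ⟨⟨f, hf⟩, fun {u v} => (e u v).symm⟩
  exact List.mem_flatMap.2 ⟨k, List.mem_range.2 (by omega), List.mem_map.2 ⟨_, flt_sub _ _, rfl⟩⟩

def aN (c : Code) (u v : ℕ) : Prop := u ≠ v ∧ ((u, v) ∈ c.2 ∨ (v, u) ∈ c.2)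

def tN (S : ℕ) (c : Code) (x v : ℕ) : Prop := ∃ l ∈ tup S (List.range c.1),
  (∀ a < S, ∀ b < S, a ≠ b → aN c (l.getD a 0) (l.getD b 0)) ∧
    ∀ a < S, (aN c v (l.getD a 0) ↔ a < x + 1)

variable {Q : Type} {K m : ℕ}

def PN (en : Ty Q K ≃ Fin m) (r0 : Fin K) (n : ℕ) (c : Code) : Prop :=
  ∀ x < c.1, ∀ o < c.1, ∀ o' < c.1, ∀ w < c.1, ∀ l ∈ tup (n + 1) (List.range c.1),
    PhiI r0 n (fun y v => tN (2 * m + 3) c (en y) v) (aN c) x o o' w fun j => l.getD j 0

theorem aN_iff {c : Code} (u v : Fin c.1) : (gr c).Adj u v ↔ aN c u v := by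
  simp [gr, aN, Fin.val_inj]

theorem tN_iff (en : Ty Q K ≃ Fin m) {c : Code} (y : Ty Q K) (v : Fin c.1) :
    typ en (gr c) y v ↔ tN (2 * m + 3) c (en y) v := by
  constructor
  · rintro ⟨f, h1, h2⟩
    refine ⟨List.ofFn fun a => (f a).val, ofFn_tup fun a => List.mem_range.2 (f a).2,
      fun a ha b hb hab => ?_, fun a ha => ?_⟩
    · rw [getD_ofFn _ ⟨a, ha⟩, getD_ofFn _ ⟨b, hb⟩, ← aN_iff]
      exact h1 _ _ (by simpa using hab)
    · rw [getD_ofFn _ ⟨a, ha⟩, ← aN_iff]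
      exact h2 _
  · rintro ⟨l, hl, h1, h2⟩
    obtain ⟨f, rfl, hf⟩ := tup_ofFn hl
    refine ⟨fun a => ⟨f a, List.mem_range.1 (hf a)⟩, fun a b hab => ?_, fun a => ?_⟩
    · have := h1 a a.2 b b.2 (Fin.val_ne_of_ne hab)
      rwa [getD_ofFn, getD_ofFn, ← aN_iff ⟨_, List.mem_range.1 (hf a)⟩
        ⟨_, List.mem_range.1 (hf b)⟩] at this
    · have := h2 a a.2
      rwa [getD_ofFn, ← aN_iff v ⟨_, List.mem_range.1 (hf a)⟩] at this

theorem PN_iff (en : Ty Q K ≃ Fin m) (r0 : Fin K) (n : ℕ) (c : Code) :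
    PN en r0 n c ↔ GoodI en r0 n (gr c) := by
  refine ⟨fun h x o o' w v => ?_, fun h x hx o ho o' ho' w hw l hl => ?_⟩
  · refine PhiI.tr (P := fun _ => True) (g := Fin.val) (fun y u _ => (tN_iff en y u).1)
      (fun u v _ _ => aN_iff u v) trivial trivial trivial trivial (fun _ _ => trivial) ?_
      (h x x.2 o o.2 o' o'.2 w w.2 (List.ofFn fun j : Fin (n + 1) => (v j).val)
        (ofFn_tup fun a => List.mem_range.2 (v a).2))
    exact fun j hj => getD_ofFn _ ⟨j, Nat.lt_succ_of_le hj⟩ _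
  · let g : ℕ → Fin c.1 := fun u => if h : u < c.1 then ⟨u, h⟩ else ⟨x, hx⟩
    have e : ∀ u, u < c.1 → (g u).val = u := fun u hu => by simp [g, hu]
    obtain ⟨f, rfl, hf⟩ := tup_ofFn hl
    refine PhiI.tr (P := fun u => u < c.1) (g := g) (t' := typ en (gr c)) (e' := (gr c).Adj)
      (fun y u hu h => ?_) (fun u v hu hv => ?_) hx ho ho' hw (fun j hj => ?_) (fun _ _ => rfl)
      (h _ _ _ _ _)
    · rwa [tN_iff, e u hu]
    · rw [aN_iff, e u hu, e v hv]
    · have := getD_ofFn f ⟨j, Nat.lt_succ_of_le hj⟩ 0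
      simp only at this
      rw [this]
      exact List.mem_range.1 (hf _)

section
attribute [local irreducible] Primrec Computable

variable {α : Type} [Primcodable α]

@[fun_prop] theorem p_aN {c : α → Code} {u v : α → ℕ} (hc : Primrec c) (hu : Primrec u)
    (hv : Primrec v) : Primrec fun a => cd (aN (c a) (u a) (v a)) := by
  unfold aN; fun_prop

@[fun_prop] theorem p_tN {S : ℕ} {c : α → Code} {u v : α → ℕ} (hc : Primrec c) (hu : Primrec u)
    (hv : Primrec v) : Primrec fun a => cd (tN S (c a) (u a) (v a)) := by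
  unfold tN; fun_prop

theorem ex3 (P : ZMod 3 → Prop) : (∃ k, P k) ↔ P 0 ∨ P 1 ∨ P 2 :=
  ⟨fun ⟨k, h⟩ => by
    have : ∀ k : ZMod 3, k = 0 ∨ k = 1 ∨ k = 2 := by decide
    rcases this k with rfl | rfl | rfl <;> simp [h],
  fun h => h.elim (⟨_, ·⟩) fun h => h.elim (⟨_, ·⟩) (⟨_, ·⟩)⟩

theorem p_PN (en : Ty Q K ≃ Fin m) (r0 : Fin K) :
    Primrec fun z : ℕ × Code => cd (PN en r0 z.1 z.2) := by
  simp only [PN, PhiI, og, sc, H.MP_451b27_lc.st, ex3]
  fun_prop

theorem p_F (en : Ty Q K ≃ Fin m) (r0 : Fin K) (F0 : List Code) (C : ℕ) :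
    Primrec fun n : ℕ => F0 ++ flt (codes ((n + 5) * C)) fun c => ¬PN en r0 n c := by
  have := p_PN en r0
  unfold codes
  fun_prop

end

theorem jep {F : List Code} (h : IsCSP F) {k1 k2 : ℕ} {E1 : SimpleGraph (Fin k1)}
    {E2 : SimpleGraph (Fin k2)} (h1 : Free F E1) (h2 : Free F E2) :
    ∃ (V : Type) (E : SimpleGraph V) (g1 : Fin k1 → V) (g2 : Fin k2 → V),
      (∀ u v, E1.Adj u v ↔ E.Adj (g1 u) (g1 v)) ∧ (∀ u v, E2.Adj u v ↔ E.Adj (g2 u) (g2 v)) ∧
      Free F E := by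
  obtain ⟨W, B', R', -, h⟩ := h
  obtain ⟨f1, a1, b1⟩ := (h _ E1 E1ᶜ disjoint_compl_right).1 ⟨E1, le_rfl, disjoint_compl_right, h1⟩
  obtain ⟨f2, a2, b2⟩ := (h _ E2 E2ᶜ disjoint_compl_right).1 ⟨E2, le_rfl, disjoint_compl_right, h2⟩
  let ψ : Fin (k1 + k2) → Fin k1 ⊕ Fin k2 := finSumFinEquiv.symm
  obtain ⟨E, e1, e2, e3⟩ := (h _ ((E1.sum E2).comap ψ) ((E1ᶜ.sum E2ᶜ).comap ψ) (by
    rw [SimpleGraph.disjoint_left]
    intro u v
    simp only [SimpleGraph.comap_adj]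
    rcases ψ u with a | a <;> rcases ψ v with b | b <;> simp +contextual)).2
    ⟨Sum.elim f1 f2 ∘ ψ, fun u v => by
      simp only [SimpleGraph.comap_adj, comp_apply]
      rcases ψ u with a | a <;> rcases ψ v with b | b
      exacts [a1 a b, fun h => by simp at h, fun h => by simp at h, a2 a b],
    fun u v => by
      simp only [SimpleGraph.comap_adj, comp_apply]
      rcases ψ u with a | a <;> rcases ψ v with b | b
      exacts [b1 a b, fun h => by simp at h, fun h => by simp at h, b2 a b]⟩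
  rw [SimpleGraph.disjoint_left] at e2
  have key : ∀ u v, (E1.sum E2).Adj u v ∨ (E1ᶜ.sum E2ᶜ).Adj u v ∨ u = v →
      ((E1.sum E2).Adj u v ↔ E.Adj (finSumFinEquiv u) (finSumFinEquiv v)) := by
    intro u v h
    refine ⟨fun h => e1 (by simpa [ψ] using h), fun h' => ?_⟩
    rcases h with h | h | rfl
    · exact h
    · exact (e2 _ _ h' (by simpa [ψ] using h)).elim
    · exact (E.irrefl h').elim
  refine ⟨_, E, fun u => finSumFinEquiv (.inl u), fun u => finSumFinEquiv (.inr u),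
    fun u v => key (.inl u) (.inl v) ?_, fun u v => key (.inr u) (.inr v) ?_, e3⟩
  · simp only [SimpleGraph.sum_adj_inl, SimpleGraph.compl_adj, Sum.inl.injEq]
    tauto
  · simp only [SimpleGraph.sum_adj_inr, SimpleGraph.compl_adj, Sum.inr.injEq]
    tauto

theorem result : ¬ComputablePred IsCSP := by
  intro hc
  obtain ⟨Q, _, M, q0, hM⟩ := Pool.Agent.Lib.helper21.Queue.exists_cm0
  obtain ⟨K, hK⟩ := (Set.finite_range M.reg).bddAbove
  let ρ : Q → Fin (K + 1) := fun q => ⟨M.reg q, Nat.lt_succ_of_le (hK ⟨q, rfl⟩)⟩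
  have hρ : ∀ q, (ρ q).val = M.reg q := fun _ => rfl
  obtain ⟨m, ⟨en⟩⟩ := Finite.exists_equiv_fin (Ty Q (K + 1))
  let F : ℕ → List Code := fun n =>
    (flt (codes ((2 * m + 11) * (1 + m * (2 * m + 3)))) fun c => ¬Good0 en M ρ q0 0 (gr c)) ++
      flt (codes ((n + 5) * (1 + m * (2 * m + 3)))) fun c => ¬PN en 0 n c
  have hF : ∀ n {V : Type} (G : SimpleGraph V),
      Free (F n) G ↔ Good0 en M ρ q0 0 G ∧ GoodI en 0 n G := by
    intro n V G
    rw [← free_iff (fun G => Good0 en M ρ q0 0 G) _ _ (fun _ => Iff.rfl) Good0.pull Good0.loc,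
      ← free_iff (fun G => GoodI en 0 n G) _ _ (PN_iff en 0 n) GoodI.pull GoodI.loc]
    simp only [Free, F, List.forall_mem_append]
  have pF : Primrec F := p_F en 0 _ _
  refine hM ((Pool.Agent.Lib.helper21.CPred.ccomp hc pF.to_comp).not.of_eq
    fun n => ⟨fun h => by_contra fun hn => h ?_, fun hn h => ?_⟩)
  · obtain ⟨W, U, h1, h2, h3⟩ := universal (en := en) (r0 := 0) hρ rfl hn
    refine ⟨W, U, Uᶜ, disjoint_compl_right, fun k B R _ => ⟨?_, ?_⟩⟩
    · rintro ⟨E, e1, e2, e3⟩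
      obtain ⟨f, hf, h⟩ := h3 k E ((hF n E).1 e3).1 ((hF n E).1 e3).2
      refine ⟨f, fun u v a => (h u v).1 (e1 a), fun u v a => ⟨hf.ne a.ne, fun b => ?_⟩⟩
      exact SimpleGraph.disjoint_left.1 e2 _ _ ((h u v).2 b) a
    · rintro ⟨f, a, b⟩
      exact ⟨U.comap f, a, SimpleGraph.disjoint_left.2 fun u v x y => (b u v y).2 x,
        (hF n _).2 ⟨Good0.pull (g := f) (fun _ _ => Iff.rfl) h1,
          GoodI.pull (g := f) (fun _ _ => Iff.rfl) h2⟩⟩
  · obtain ⟨k1, k2, E1, E2, a1, b1, a2, b2, H⟩ := no_jep (en := en) (r0 := 0) hρ rfl hn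
    obtain ⟨V, E, g1, g2, e1, e2, e3⟩ := jep h ((hF n _).2 ⟨a1, b1⟩) ((hF n _).2 ⟨a2, b2⟩)
    exact H V E g1 g2 e1 e2 ((hF n E).1 e3).1 ((hF n E).1 e3).2

end Pool.Agent.Results.MP_451b27_lc.Undec
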